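import Pool.Agent.Lib.MP_3eb21e_gt.It.Top

/-!
The maps induced on the symmetric products by a map of the class `Gen` are universal. The spaces
whose identity map is in `Gen` and all their symmetric products have the fixed point property.
-/

namespace Pool.Agent.Results.MP_3eb21e_gt.ClosedClass

open Pool.Agent.Lib.MP_3eb21e_gt

theorem result (X Y : Type) [TopologicalSpace X] [TopologicalSpace Y] (f : X → Y) (hf : Gen X Y f)
    (n : ℕ) (hn : 1 ≤ n) (g : SymProd X n → SymProd Y n) (hg : Continuous g) :
    ∃ A : SymProd X n, (g A).pts = f '' A.pts :=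
  (It.universal (Gen.sym X Y f n hn hf) hg).imp fun _ h => congrArg SymProd.pts h

/-- Identity maps: the fixed point property. -/
theorem fpp (E : Type) [TopologicalSpace E] (hE : Gen E E id) : FPP E :=
  fun _ hg => It.universal hE hg

/-- Identity maps: the class of spaces is closed under symmetric products. -/
theorem sym_id (E : Type) [TopologicalSpace E] (hE : Gen E E id) (n : ℕ) (hn : 1 ≤ n) :
    Gen (SymProd E n) (SymProd E n) id := by
  have : symMap (id : E → E) n = id := by
    funext A
    cases A
    simp [symMap]
  exact this ▸ Gen.sym E E id n hn hE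

/-- Identity maps: the class of spaces is closed under retracts. -/
theorem retract_id (E E' : Type) [TopologicalSpace E] [TopologicalSpace E'] [CompactSpace E']
    [T2Space E'] (hE : Gen E E id) (q : E → E') (j : E' → E) (hq : Continuous q)
    (hj : Continuous j) (h : q ∘ j = id) : Gen E' E' id :=
  Gen.factor E E E' E' id id q q j continuous_id hq hq hj rfl h hE

/-- The earlier form: symmetric products of products of maps onto chainable continua. -/
theorem products (I : Type) (X Y : I → Type)
    [∀ i, TopologicalSpace (X i)] [∀ i, CompactSpace (X i)] [∀ i, T2Space (X i)]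
    [∀ i, ConnectedSpace (X i)]
    [∀ i, TopologicalSpace (Y i)] [∀ i, CompactSpace (Y i)] [∀ i, T2Space (Y i)]
    (hY : ∀ i, Chainable (Y i)) (f : ∀ i, X i → Y i) (hf : ∀ i, Continuous (f i))
    (hs : ∀ i, Function.Surjective (f i)) (n : ℕ) (hn : 1 ≤ n)
    (g : SymProd (∀ i, X i) n → SymProd (∀ i, Y i) n) (hg : Continuous g) :
    ∃ A : SymProd (∀ i, X i) n, (g A).pts = (fun x i => f i (x i)) '' A.pts :=
  result _ _ _ (Gen.pi I X Y f fun i => Gen.arc _ _ _ (hY i) (hf i) (hs i)) n hn g hg

end Pool.Agent.Results.MP_3eb21e_gt.ClosedClass
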