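import Pool.Agent.Lib.MP_3eb21e_gt.Fan

/-!
The fan (a bounded star-shaped countable union of segments in the plane) has the fixed point
property, and none of its symmetric products with `n ≥ 2` has it.
-/

namespace Pool.Agent.Results.MP_3eb21e_gt.FanAll

open Pool.Agent.Lib.MP_3eb21e_gt

theorem result : FPP fan ∧ ∀ n : ℕ, 2 ≤ n → ¬ FPP (SymProd fan n) :=
  ⟨fan_fpp, fun _ hn => fan_sym hn⟩

end Pool.Agent.Results.MP_3eb21e_gt.FanAll
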