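import Pool.Agent.Lib.MP_3eb21e_gt.Sym

/-!
If some symmetric product `E(n)`, `n ≥ 2`, of a path connected space `E` has the fixed point
property, then every continuous real function on `E` is bounded.
-/

namespace Pool.Agent.Results.MP_3eb21e_gt.Pseudocompact

open Pool.Agent.Lib.MP_3eb21e_gt

theorem result (E : Type) [TopologicalSpace E] [PathConnectedSpace E] (n : ℕ) (hn : 2 ≤ n)
    (h : FPP (SymProd E n)) (g : E → ℝ) (hg : Continuous g) : ∃ C : ℝ, ∀ x, |g x| ≤ C := by
  by_contra c
  exact not_fpp_of_unbounded hg.abs (fun ⟨C, hC⟩ => c ⟨C, fun x => hC ⟨x, rfl⟩⟩) hn h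

end Pool.Agent.Results.MP_3eb21e_gt.Pseudocompact
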